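import Pool.Agent.ANO3.Grp.Index

/-!
# ANO3, module Grp: the number of orbits of periodic points of one type (package GRP-ORB)

`H ≤ Deck S k` is a group which is normalized by `T₀` and `T` (`hH`), `P₀ m` the set of the points
`z`
with `h (T₀^[m] z) = z` for some `h ∈ H`, `P m` the same for `T`. Hypothesis `hself`: if `z` and `a
z`
both belong to `P₀ m` for some `m > 0`, `a ∈ Deck S k`, then `a ∈ H`.

CLAIM: `#(P m / H) ≤ #(P₀ m / H)` for each `m > 0`. A lift is a map `h ∘ T^[m]`, `h ∈ H`; `H` acts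
on the
elements `h ∈ H` by `a • h = h'` iff `a ∘ h ∘ T^[m] ∘ a⁻¹ = h' ∘ T^[m]`, iff
`a ∘ h ∘ T₀^[m] ∘ a⁻¹ = h' ∘ T₀^[m]` (same `h'`: if `T₀^[m] ∘ a = a' ∘ T₀^[m]` and
`T^[m] ∘ a = a' ∘ T^[m]`, `a' ∈ H`, then `h' = a * h * a'⁻¹`). To an orbit `o ∈ P m / H` assign the
class
of `h`, where `x ∈ o`, `h (T^[m] x) = x` (`h` is unique by `eq_of_apply_eq`; `a x` has the element
`a • h`); the same for `P₀ m / H`. The fibre over the class of `h` is in bijection with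
`fixOrb (Cent S k (h ∘ T₀^[m])) (h ∘ T^[m])`, resp. `fixOrb (Cent ..) (h ∘ T₀^[m])`: an orbit `o`
in the
fibre meets the fixed point set of `h ∘ T^[m]` in exactly one orbit of `Cent S k (h ∘ T₀^[m]) ∩ H`,
and
`Cent ≤ H` by `hself` if `h ∘ T₀^[m]` has a fixed point; if it has none then both fibres are empty
(`no_fix`). By `encard_le` the fibre over each class for `T` has at most as many elements as the
one for
`T₀`; summing over the classes (`encard_le_of_fibers`, `P₀ m / H` is finite) proves the claim.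

`finite_periodic`: `P m / H ⊆ P (m m') / H`, all with at most `N` elements, so the union has at
most `N`
elements (if `p_0, …, p_N` were in different orbits, take the product of the periods).
Here `T = g ∘ F ^ M`, `T₀ = g ∘ G₀`; `T^[m] = g' ∘ F ^ (M * m)`, `T₀^[m] = g' ∘ G₀^[m]`
(`exists_iterate`, `homotopic_iterate`; `(F ^ M)^[m] = F ^ (M * m)`).
-/

set_option autoImplicit false
set_option linter.unusedSectionVars false

open Set Filter Topology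
open scoped UpperHalfPlane MatrixGroups

namespace Pool.Agent.ANO3.Grp

open Pool.Agent.ANO Pool.Agent.ANO2 Pool.Agent.ANO2.EqIdx

theorem encard_le_of_fibers {A B C : Type} (f : A → C) (g : B → C) {s : Set A} {t : Set B}
    (ht : t.Finite) (h : ∀ c, (s ∩ f ⁻¹' {c}).encard ≤ (t ∩ g ⁻¹' {c}).encard) :
    s.encard ≤ t.encard := by
  rcases s.eq_empty_or_nonempty with hs | ⟨a₀, ha₀⟩
  · rw [hs, Set.encard_empty]
    exact zero_le
  have hB : Nonempty B := by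
    have h1 := h (f a₀)
    have h2 : (s ∩ f ⁻¹' {f a₀}).encard ≠ 0 := by
      rw [Set.encard_ne_zero]
      exact ⟨a₀, ha₀, rfl⟩
    have h3 : (t ∩ g ⁻¹' {f a₀}).encard ≠ 0 := fun h0 => h2 (by
      rw [h0] at h1
      exact le_antisymm h1 zero_le)
    rw [Set.encard_ne_zero] at h3
    exact ⟨h3.choose⟩
  have hfin : ∀ c, (s ∩ f ⁻¹' {c}).Finite := by
    intro c
    rw [← Set.encard_lt_top_iff]
    exact (h c).trans_lt ((ht.subset Set.inter_subset_left).encard_lt_top)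
  choose F hF hFi using fun c => (hfin c).exists_injOn_of_encard_le (h c)
  refine Set.encard_le_encard_of_injOn (f := fun a => F (f a) a) ?_ ?_
  · intro a ha
    have h1 : a ∈ F (f a) ⁻¹' (t ∩ g ⁻¹' {f a}) := hF (f a) ⟨ha, rfl⟩
    exact h1.1
  · intro a ha b hb hab
    have h1 : a ∈ F (f a) ⁻¹' (t ∩ g ⁻¹' {f a}) := hF (f a) ⟨ha, rfl⟩
    have h2 : b ∈ F (f b) ⁻¹' (t ∩ g ⁻¹' {f b}) := hF (f b) ⟨hb, rfl⟩
    have h3 : f a = f b := by
      have e1 : g (F (f a) a) = f a := h1.2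
      have e2 : g (F (f b) b) = f b := h2.2
      simp only at hab
      rw [← e1, ← e2, hab]
    refine hFi (f a) ⟨ha, rfl⟩ ⟨hb, h3.symm⟩ ?_
    simp only at hab
    rw [hab, h3]

section abstractPart

variable {X : Type}

private theorem orbit_eq_Orbits {H : Subgroup (Equiv.Perm X)} {a : Equiv.Perm X} (ha : a ∈ H)
    (y : X) : MulAction.orbit H (a y) = MulAction.orbit H y :=
  MulAction.orbit_eq_iff.2 ⟨⟨a, ha⟩, rfl⟩

private theorem exists_of_mem_Orbits {H : Subgroup (Equiv.Perm X)} {y w : X}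
    (hw : w ∈ MulAction.orbit H y) : ∃ a ∈ H, w = a y := by
  obtain ⟨a, rfl⟩ := hw
  exact ⟨a.1, a.2, rfl⟩

/-- The elements of `H` attached to a set. -/
private def cls_Orbits (H : Subgroup (Equiv.Perm X)) (V : X → X) (o : Set X) :
    Set (Equiv.Perm X) := {b | b ∈ H ∧ ∃ w ∈ o, b (V w) = w}

/-- The twisted conjugacy class. -/
private def tw_Orbits (H : Subgroup (Equiv.Perm X)) (U₀ U : X → X) (h : Equiv.Perm X) :
    Set (Equiv.Perm X) := {b | ∃ a ∈ H, ∃ a' ∈ H, (∀ p, U₀ (a p) = a' (U₀ p)) ∧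
      (∀ p, U (a p) = a' (U p)) ∧ b = a * h * a'⁻¹}

private theorem cls_eq_Orbits {D H : Subgroup (Equiv.Perm X)} (hHD : H ≤ D)
    (free : ∀ a ∈ D, ∀ b ∈ D, ∀ p : X, a p = b p → a = b) {U₀ U V : X → X}
    (hn : ∀ a ∈ H, ∃ a' ∈ H, (∀ p, U₀ (a p) = a' (U₀ p)) ∧ ∀ p, U (a p) = a' (U p))
    (hV : V = U₀ ∨ V = U) {h : Equiv.Perm X} (hh : h ∈ H) {y : X} (hy : h (V y) = y) :
    cls_Orbits H V (MulAction.orbit H y) = tw_Orbits H U₀ U h := by
  have hVa : ∀ a a' : Equiv.Perm X, (∀ p, U₀ (a p) = a' (U₀ p)) → (∀ p, U (a p) = a' (U p)) →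
      ∀ p, V (a p) = a' (V p) := by
    intro a a' h1 h2
    rcases hV with rfl | rfl
    · exact h1
    · exact h2
  ext b
  constructor
  · rintro ⟨hb, w, hw, hbw⟩
    obtain ⟨a, ha, rfl⟩ := exists_of_mem_Orbits hw
    obtain ⟨a', ha', h1, h2⟩ := hn a ha
    refine ⟨a, ha, a', ha', h1, h2, ?_⟩
    rw [hVa a a' h1 h2] at hbw
    have h3 : (b * a') (V y) = (a * h) (V y) := by
      rw [Equiv.Perm.mul_apply, Equiv.Perm.mul_apply, hbw, hy]
    have h4 := free _ (D.mul_mem (hHD hb) (hHD ha')) _ (D.mul_mem (hHD ha) (hHD hh)) _ h3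
    exact eq_mul_inv_of_mul_eq h4
  · rintro ⟨a, ha, a', ha', h1, h2, rfl⟩
    refine ⟨H.mul_mem (H.mul_mem ha hh) (H.inv_mem ha'), a y, ⟨⟨a, ha⟩, rfl⟩, ?_⟩
    have h3 : (a'⁻¹ : Equiv.Perm X) (a' (V y)) = V y := a'.symm_apply_apply _
    rw [hVa a a' h1 h2, Equiv.Perm.mul_apply, h3, Equiv.Perm.mul_apply, hy]

/-- The saturation under `H`. -/
private def sat_Orbits (H : Subgroup (Equiv.Perm X)) (o : Set X) : Set X :=
  {w | ∃ y ∈ o, w ∈ MulAction.orbit H y}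

private theorem sat_eq_Orbits {Z H : Subgroup (Equiv.Perm X)} (hZH : Z ≤ H) (y : X) :
    sat_Orbits H (MulAction.orbit Z y) = MulAction.orbit H y := by
  ext w
  constructor
  · rintro ⟨z, hz, hw⟩
    obtain ⟨a, ha, rfl⟩ := exists_of_mem_Orbits hz
    rwa [orbit_eq_Orbits (hZH ha)] at hw
  · intro hw
    exact ⟨y, MulAction.mem_orbit_self y, hw⟩

private theorem abstract_Orbits {D H : Subgroup (Equiv.Perm X)} (hHD : H ≤ D)
    (free : ∀ a ∈ D, ∀ b ∈ D, ∀ p : X, a p = b p → a = b) {U₀ U : X → X}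
    (hn : ∀ a ∈ H, ∃ a' ∈ H, (∀ p, U₀ (a p) = a' (U₀ p)) ∧ ∀ p, U (a p) = a' (U p))
    (hle : ∀ h ∈ H, (∃ x, h (U x) = x) → ∃ Z : Subgroup (Equiv.Perm X), Z ≤ H ∧
      (∀ a ∈ H, (∀ p, h (U₀ (a p)) = a (h (U₀ p))) → a ∈ Z) ∧
      (fixOrb Z (h ∘ U)).encard ≤ (fixOrb Z (h ∘ U₀)).encard)
    (hfin : ((fun q => MulAction.orbit H q) '' {x | ∃ h ∈ H, h (U₀ x) = x}).Finite) :
    ((fun q => MulAction.orbit H q) '' {x | ∃ h ∈ H, h (U x) = x}).encard ≤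
      ((fun q => MulAction.orbit H q) '' {x | ∃ h ∈ H, h (U₀ x) = x}).encard := by
  refine encard_le_of_fibers (cls_Orbits H U) (cls_Orbits H U₀) hfin fun c => ?_
  rcases Set.eq_empty_or_nonempty
    ((fun q => MulAction.orbit H q) '' {x | ∃ h ∈ H, h (U x) = x} ∩ cls_Orbits H U ⁻¹' {c})
    with hne | ⟨o, ⟨x, ⟨h, hh, hx⟩, rfl⟩, hc⟩
  · rw [hne, Set.encard_empty]
    exact zero_le
  have hc' : cls_Orbits H U (MulAction.orbit H x) = c := hc
  rw [cls_eq_Orbits hHD free hn (Or.inr rfl) hh hx] at hc'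
  obtain ⟨Z, hZH, hZ, hle'⟩ := hle h hh ⟨x, hx⟩
  have hhc : h ∈ c := by
    rw [← hc']
    exact ⟨1, H.one_mem, 1, H.one_mem, fun _ => rfl, fun _ => rfl, by simp⟩
  have h1 : ((fun q => MulAction.orbit H q) '' {x | ∃ h ∈ H, h (U x) = x} ∩
      cls_Orbits H U ⁻¹' {c}) ⊆ sat_Orbits H '' fixOrb Z (h ∘ U) := by
    rintro _ ⟨⟨x', -, rfl⟩, hc2⟩
    have hc3 : cls_Orbits H U (MulAction.orbit H x') = c := hc2
    rw [← hc3] at hhc
    obtain ⟨-, y, hy, hyf⟩ := hhc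
    refine ⟨MulAction.orbit Z y, ⟨y, hyf, rfl⟩, ?_⟩
    rw [sat_eq_Orbits hZH]
    exact MulAction.orbit_eq_iff.2 hy
  have hinj : Set.InjOn (sat_Orbits H) (fixOrb Z (h ∘ U₀)) := by
    rintro _ ⟨y, hy, rfl⟩ _ ⟨y', hy', rfl⟩ he
    simp only at he ⊢
    rw [sat_eq_Orbits hZH, sat_eq_Orbits hZH] at he
    have hy1 : h (U₀ y) = y := hy
    have hy2 : h (U₀ y') = y' := hy'
    obtain ⟨a, ha, hay⟩ := exists_of_mem_Orbits (MulAction.orbit_eq_iff.1 he)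
    have haZ : a ∈ Z := by
      apply hZ a ha
      obtain ⟨a', ha', e1, -⟩ := hn a ha
      have h3 : (h * a') (U₀ y') = (a * h) (U₀ y') := by
        rw [Equiv.Perm.mul_apply, Equiv.Perm.mul_apply, ← e1, ← hay, hy1, hy2, hay]
      have h4 := free _ (D.mul_mem (hHD hh) (hHD ha')) _ (D.mul_mem (hHD ha) (hHD hh)) _ h3
      intro p
      rw [e1]
      exact DFunLike.congr_fun h4 (U₀ p)
    rw [hay]
    exact orbit_eq_Orbits haZ y'
  have h2 : sat_Orbits H '' fixOrb Z (h ∘ U₀) ⊆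
      ((fun q => MulAction.orbit H q) '' {x | ∃ h ∈ H, h (U₀ x) = x} ∩
        cls_Orbits H U₀ ⁻¹' {c}) := by
    rintro _ ⟨_, ⟨y, hy, rfl⟩, rfl⟩
    have hy1 : h (U₀ y) = y := hy
    simp only
    rw [sat_eq_Orbits hZH]
    refine ⟨⟨y, ⟨h, hh, hy1⟩, rfl⟩, ?_⟩
    change cls_Orbits H U₀ (MulAction.orbit H y) = c
    rw [cls_eq_Orbits hHD free hn (Or.inl rfl) hh hy1]
    exact hc'
  calc _ ≤ (sat_Orbits H '' fixOrb Z (h ∘ U)).encard := Set.encard_le_encard h1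
    _ ≤ (fixOrb Z (h ∘ U)).encard := Set.encard_image_le _ _
    _ ≤ (fixOrb Z (h ∘ U₀)).encard := hle'
    _ = (sat_Orbits H '' fixOrb Z (h ∘ U₀)).encard := hinj.encard_image.symm
    _ ≤ _ := Set.encard_le_encard h2

end abstractPart

variable {r k : ℕ} {S : Fin r → ClosedSurface} {F : ANO.X r k ≃ₜ ANO.X r k}

/-- the points which are fixed by `h ∘ T^[m]` for some `h ∈ H` -/
def perPts (H : Subgroup (Equiv.Perm (ANO.X r k))) (T : ANO.X r k → ANO.X r k) (m : ℕ) :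
    Set (ANO.X r k) := {x | ∃ h ∈ H, h (T^[m] x) = x}

/-- `H` is normalized by the iterates of both maps. -/
private theorem norm_Orbits {G₀ G : ANO.X r k → ANO.X r k} (h : Homotopic S G₀ G)
    {g : Equiv.Perm (ANO.X r k)} (hg : g ∈ Deck S k) {H : Subgroup (Equiv.Perm (ANO.X r k))}
    (hHD : H ≤ Deck S k) (hH : ∀ a ∈ H, ∃ a' ∈ H, ∀ p, g (G₀ (a p)) = a' (g (G₀ p)))
    (m : ℕ) : ∀ a ∈ H, ∃ a' ∈ H, (∀ p, (g ∘ G₀)^[m] (a p) = a' ((g ∘ G₀)^[m] p)) ∧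
      ∀ p, (g ∘ G)^[m] (a p) = a' ((g ∘ G)^[m] p) := by
  have hone : ∀ a ∈ H, ∃ a' ∈ H, (∀ p, (g ∘ G₀) (a p) = a' ((g ∘ G₀) p)) ∧
      ∀ p, (g ∘ G) (a p) = a' ((g ∘ G) p) := by
    intro a ha
    obtain ⟨a', ha', h1⟩ := hH a ha
    refine ⟨a', ha', h1, ?_⟩
    obtain ⟨b, hb, hb1, hb2⟩ := homotopic_comp h hg a (hHD ha)
    obtain ⟨b', hb', hb3⟩ := exists_deck hb
    have p₀ : ANO.X r k := (fun _ => UpperHalfPlane.I, fun _ => 0)
    have h2 : a' = b' := by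
      refine eq_of_apply_eq (S := S) (p := g (G₀ p₀)) (hHD ha') hb' ?_
      rw [← h1, hb3]
      exact congrFun hb1 p₀
    intro p
    rw [h2, hb3]
    exact congrFun hb2 p
  induction m with
  | zero => exact fun a ha => ⟨a, ha, fun p => rfl, fun p => rfl⟩
  | succ m ih =>
    intro a ha
    obtain ⟨a', ha', h1, h2⟩ := hone a ha
    obtain ⟨a'', ha'', h3, h4⟩ := ih a' ha'
    refine ⟨a'', ha'', fun p => ?_, fun p => ?_⟩
    · rw [Function.iterate_succ_apply, Function.iterate_succ_apply, h1, h3]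
    · rw [Function.iterate_succ_apply, Function.iterate_succ_apply, h2, h4]

private theorem pow_iterate_Orbits (F : ANO.X r k ≃ₜ ANO.X r k) (M m : ℕ) (p : ANO.X r k) :
    (F ^ M : ANO.X r k ≃ₜ ANO.X r k)^[m] p = (F ^ (M * m) : ANO.X r k ≃ₜ ANO.X r k) p := by
  induction m generalizing p with
  | zero => rfl
  | succ m ih =>
    rw [Function.iterate_succ_apply, ih, Nat.mul_succ, pow_add]
    rfl

theorem encard_orbits_le (hF : IsAnosovLift S F) {M : ℕ} (hM : 0 < M)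
    {G₀ : ANO.X r k → ANO.X r k} (h₀ : Continuous G₀)
    (h : Homotopic S G₀ (F ^ M : ANO.X r k ≃ₜ ANO.X r k)) {g : Equiv.Perm (ANO.X r k)}
    (hg : g ∈ Deck S k) {H : Subgroup (Equiv.Perm (ANO.X r k))} (hHD : H ≤ Deck S k)
    (hH : ∀ a ∈ H, ∃ a' ∈ H, ∀ p, g (G₀ (a p)) = a' (g (G₀ p))) {m : ℕ} (hm : 0 < m)
    (hself : ∀ a ∈ Deck S k, ∀ z ∈ perPts H (g ∘ G₀) m, a z ∈ perPts H (g ∘ G₀) m → a ∈ H)
    (hnd : ∀ h ∈ H, Nondeg (h ∘ (g ∘ G₀)^[m]))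
    (hfin : ((fun q => MulAction.orbit H q) '' perPts H (g ∘ G₀) m).Finite) :
    ((fun q => MulAction.orbit H q) ''
        perPts H (g ∘ (F ^ M : ANO.X r k ≃ₜ ANO.X r k)) m).encard ≤
      ((fun q => MulAction.orbit H q) '' perPts H (g ∘ G₀) m).encard := by
  obtain ⟨g', hg', e1, e2⟩ := exists_iterate h hg m
  have hh : Homotopic S G₀^[m] (F ^ (M * m) : ANO.X r k ≃ₜ ANO.X r k) := by
    have h1 := homotopic_iterate h m
    have h2 : (F ^ M : ANO.X r k ≃ₜ ANO.X r k)^[m] = (F ^ (M * m) : ANO.X r k ≃ₜ ANO.X r k) := by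
      funext p
      exact pow_iterate_Orbits F M m p
    rwa [h2] at h1
  have hMm : 0 < M * m := Nat.mul_pos hM hm
  refine abstract_Orbits hHD (fun a ha b hb p hp => eq_of_apply_eq ha hb hp)
    (norm_Orbits h hg hHD hH m) ?_ hfin
  rintro b hb ⟨x, hx⟩
  have hbg : b * g' ∈ Deck S k := mul_mem (hHD hb) hg'
  have hE₀ : (b ∘ (g ∘ G₀)^[m] : ANO.X r k → ANO.X r k) = (b * g' : Equiv.Perm _) ∘ G₀^[m] := by
    funext p
    change b ((g ∘ G₀)^[m] p) = b (g' (G₀^[m] p))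
    rw [e1]
  have hE : (b ∘ (g ∘ (F ^ M : ANO.X r k ≃ₜ ANO.X r k))^[m] : ANO.X r k → ANO.X r k) =
      (b * g' : Equiv.Perm _) ∘ (F ^ (M * m) : ANO.X r k ≃ₜ ANO.X r k) := by
    funext p
    change b ((g ∘ (F ^ M : ANO.X r k ≃ₜ ANO.X r k))^[m] p) =
      b (g' ((F ^ (M * m) : ANO.X r k ≃ₜ ANO.X r k) p))
    rw [e2, pow_iterate_Orbits]
  have hz : ∃ z, b ((g ∘ G₀)^[m] z) = z := by
    by_contra hcon
    push Not at hcon
    refine no_fix hF hMm (h₀.iterate m) hh hbg (fun p hp => hcon p ?_) x ?_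
    · rw [e1]
      exact hp
    · have h3 := congrFun hE x
      change b ((g ∘ (F ^ M : ANO.X r k ≃ₜ ANO.X r k))^[m] x) = _ at h3
      rw [hx] at h3
      exact h3.symm
  obtain ⟨z, hz⟩ := hz
  refine ⟨Cent S k (b ∘ (g ∘ G₀)^[m]), ?_, ?_, ?_⟩
  · rintro a ⟨ha, hac⟩
    refine hself a ha z ⟨b, hb, hz⟩ ⟨b, hb, ?_⟩
    have h3 := hac z
    change b ((g ∘ G₀)^[m] (a z)) = a (b ((g ∘ G₀)^[m] z)) at h3
    rw [h3, hz]
  · intro a ha hac
    exact ⟨hHD ha, hac⟩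
  · have h3 := encard_le hF hMm (h₀.iterate m) hh hbg (by
      rw [← hE₀]
      exact hnd b hb)
    rw [hE, hE₀]
    exact h3

private theorem mul_mem_Orbits {G₀ G : ANO.X r k → ANO.X r k} (h : Homotopic S G₀ G)
    {g : Equiv.Perm (ANO.X r k)} (hg : g ∈ Deck S k) {H : Subgroup (Equiv.Perm (ANO.X r k))}
    (hHD : H ≤ Deck S k) (hH : ∀ a ∈ H, ∃ a' ∈ H, ∀ p, g (G₀ (a p)) = a' (g (G₀ p)))
    {m : ℕ} {x : ANO.X r k} (hx : x ∈ perPts H (g ∘ G) m) (j : ℕ) :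
    x ∈ perPts H (g ∘ G) (m * j) := by
  obtain ⟨b, hb, hbx⟩ := hx
  induction j with
  | zero => exact ⟨1, H.one_mem, rfl⟩
  | succ j ih =>
    obtain ⟨c, hc, hcx⟩ := ih
    obtain ⟨b', hb', -, h2⟩ := norm_Orbits h hg hHD hH (m * j) b⁻¹ (H.inv_mem hb)
    refine ⟨c * b'⁻¹, H.mul_mem hc (H.inv_mem hb'), ?_⟩
    have h3 : (g ∘ G)^[m] x = (b⁻¹ : Equiv.Perm _) x := by
      rw [eq_comm, Equiv.Perm.inv_eq_iff_eq]
      exact hbx.symm
    rw [Nat.mul_succ, Function.iterate_add_apply, h3, h2]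
    have h4 : (b'⁻¹ : Equiv.Perm _) (b' ((g ∘ G)^[m * j] x)) = (g ∘ G)^[m * j] x :=
      b'.symm_apply_apply _
    rw [Equiv.Perm.mul_apply, h4, hcx]

/-- finitely many orbits of periodic points -/
theorem finite_periodic (hF : IsAnosovLift S F) {M : ℕ} (hM : 0 < M)
    {G₀ : ANO.X r k → ANO.X r k} (h₀ : Continuous G₀)
    (h : Homotopic S G₀ (F ^ M : ANO.X r k ≃ₜ ANO.X r k)) {g : Equiv.Perm (ANO.X r k)}
    (hg : g ∈ Deck S k) {H : Subgroup (Equiv.Perm (ANO.X r k))} (hHD : H ≤ Deck S k)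
    (hH : ∀ a ∈ H, ∃ a' ∈ H, ∀ p, g (G₀ (a p)) = a' (g (G₀ p)))
    (hself : ∀ m : ℕ, 0 < m → ∀ a ∈ Deck S k, ∀ z ∈ perPts H (g ∘ G₀) m,
      a z ∈ perPts H (g ∘ G₀) m → a ∈ H)
    (hnd : ∀ m : ℕ, 0 < m → ∀ h ∈ H, Nondeg (h ∘ (g ∘ G₀)^[m]))
    (hfin : ((fun q => MulAction.orbit H q) ''
      {x | ∃ m : ℕ, 0 < m ∧ x ∈ perPts H (g ∘ G₀) m}).Finite) :
    ((fun q => MulAction.orbit H q) ''
      {x | ∃ m : ℕ, 0 < m ∧ x ∈ perPts H (g ∘ (F ^ M : ANO.X r k ≃ₜ ANO.X r k)) m}).Finite := by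
  classical
  obtain ⟨N, hN⟩ : ∃ N : ℕ, ((fun q => MulAction.orbit H q) ''
      {x | ∃ m : ℕ, 0 < m ∧ x ∈ perPts H (g ∘ G₀) m}).encard = N :=
    ⟨_, hfin.cast_ncard_eq.symm⟩
  have hsub : ∀ m : ℕ, 0 < m → (fun q => MulAction.orbit H q) '' perPts H (g ∘ G₀) m ⊆
      (fun q => MulAction.orbit H q) '' {x | ∃ m : ℕ, 0 < m ∧ x ∈ perPts H (g ∘ G₀) m} :=
    fun m hm => Set.image_mono fun x hx => ⟨m, hm, hx⟩
  have hle : ∀ m : ℕ, 0 < m → ((fun q => MulAction.orbit H q) ''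
      perPts H (g ∘ (F ^ M : ANO.X r k ≃ₜ ANO.X r k)) m).encard ≤ N := by
    intro m hm
    rw [← hN]
    exact (encard_orbits_le hF hM h₀ h hg hHD hH hm (hself m hm) (hnd m hm)
      (hfin.subset (hsub m hm))).trans (Set.encard_le_encard (hsub m hm))
  by_contra hinf
  obtain ⟨A, hA, hAc⟩ := Set.Infinite.exists_subset_card_eq hinf (N + 1)
  have hper : ∀ o ∈ A, ∃ m : ℕ, 0 < m ∧ o ∈ (fun q => MulAction.orbit H q) ''
      perPts H (g ∘ (F ^ M : ANO.X r k ≃ₜ ANO.X r k)) m := by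
    intro o ho
    obtain ⟨x, ⟨m, hm, hx⟩, rfl⟩ := hA ho
    exact ⟨m, hm, x, hx, rfl⟩
  choose! per hper0 hper1 using hper
  have hm : 0 < ∏ o ∈ A, per o := Finset.prod_pos hper0
  have hAsub : (A : Set (Set (ANO.X r k))) ⊆ (fun q => MulAction.orbit H q) ''
      perPts H (g ∘ (F ^ M : ANO.X r k ≃ₜ ANO.X r k)) (∏ o ∈ A, per o) := by
    intro o ho
    obtain ⟨x, hx, hxo⟩ := hper1 o ho
    obtain ⟨j, hj⟩ := Finset.dvd_prod_of_mem per ho
    refine ⟨x, ?_, hxo⟩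
    rw [hj]
    exact mul_mem_Orbits h hg hHD hH hx j
  have h1 := (Set.encard_le_encard hAsub).trans (hle _ hm)
  rw [Set.encard_coe_eq_coe_finsetCard, hAc] at h1
  have h2 : N + 1 ≤ N := by exact_mod_cast h1
  omega

end Pool.Agent.ANO3.Grp
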