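import Pool.Agent.ANO3.Grp.Defs
import Pool.Agent.ANO2.Idx.Near
import Pool.Agent.ANO2.Idx.Deck

/-!
# ANO3, module Grp: deck transformations (package GRP-BASIC)

`eq_of_apply_eq`: `g⁻¹ * h` is a deck transformation which fixes `p`: each `γ_i` fixes a point of
`ℍ`, so it acts trivially (`ClosedSurface.free`), and the translation vector is `0`.
`action`: `dist_smul`: `Dyn.IsDeck.isometry`; `smooth`: `Idx.deck_contDiffOn`; `free`:
`eq_of_apply_eq`; `proper`: `Dyn.deck_finite` (a finite set of maps; `Equiv.Perm` is determined by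
the map, `DFunLike.coe_injective`), then the subgroup `Z` is embedded in `Deck S k`.
`comm_of_comm`: let `a` be a deck transformation, `G₀ ∘ a = a' ∘ G₀`, `G ∘ a = a' ∘ G`
(`Homotopic`). If `a` commutes with `g ∘ G₀` then `a g (G₀ p) = g a' (G₀ p)`, so `a g = g a'` by
`eq_of_apply_eq`, and `a` commutes with `g ∘ G`.
`homotopic_iterate`: induction (`G₀^[m+1] ∘ g = G₀^[m] ∘ g' ∘ G₀ = g'' ∘ G₀^[m] ∘ G₀`), the same
for `G`.
`near_iterate`: from `Idx.near`.
-/

set_option autoImplicit false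
set_option linter.unusedSectionVars false

open Set Filter Topology
open scoped UpperHalfPlane MatrixGroups

namespace Pool.Agent.ANO3.Grp

open Pool.Agent.ANO Pool.Agent.ANO2 Pool.Agent.ANO2.EqIdx

variable {r k : ℕ} {S : Fin r → ClosedSurface}

private theorem inv_apply_Basic (g : Equiv.Perm (ANO.X r k)) (p : ANO.X r k) :
    (g⁻¹ : Equiv.Perm (ANO.X r k)) (g p) = p := Equiv.symm_apply_apply g p

/-- deck transformations which agree at one point are equal -/
theorem eq_of_apply_eq {g h : Equiv.Perm (ANO.X r k)} (hg : g ∈ Deck S k) (hh : h ∈ Deck S k)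
    {p : ANO.X r k} (he : g p = h p) : g = h := by
  have hu : g⁻¹ * h ∈ Deck S k := mul_mem (inv_mem hg) hh
  have hp : (g⁻¹ * h) p = p := by
    rw [Equiv.Perm.mul_apply, ← he, inv_apply_Basic]
  obtain ⟨γ, v, hγ, hu'⟩ := hu
  have hfix := (hu' p).symm.trans hp
  have h1 : ∀ i, ∀ w : ℍ, γ i • w = w := by
    intro i
    refine (S i).free (γ i) (hγ i) (p.1 i) ?_
    exact congrFun (congrArg Prod.fst hfix) i
  have h2 : ∀ j, ((v j : ℤ) : ℝ) = 0 := by
    intro j
    have h3 : p.2 j + ((v j : ℤ) : ℝ) = p.2 j := congrFun (congrArg Prod.snd hfix) j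
    linarith
  refine Equiv.ext fun q => ?_
  have h4 : (g⁻¹ * h) q = q := by
    rw [hu' q]
    refine Prod.ext (funext fun i => h1 i _) (funext fun j => ?_)
    change q.2 j + ((v j : ℤ) : ℝ) = q.2 j
    rw [h2 j, add_zero]
  rw [Equiv.Perm.mul_apply, Equiv.Perm.inv_eq_iff_eq] at h4
  exact h4.symm

theorem exists_deck {g : ANO.X r k → ANO.X r k} (hg : IsDeck S k g) :
    ∃ g' ∈ Deck S k, ∀ p, g' p = g p := by
  obtain ⟨g', -, h1, h2⟩ := Dyn.IsDeck.inv hg
  exact ⟨⟨g, g', h1, h2⟩, hg, fun _ => rfl⟩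

/-- every subgroup of the deck group acts freely and properly discontinuously by isometries -/
theorem action {Z : Subgroup (Equiv.Perm (ANO.X r k))} (hZ : Z ≤ Deck S k) :
    Action (chartX r k) Z := by
  refine ⟨fun z x y => ?_, fun z => ?_, fun z x hz => ?_, fun K hK => ?_⟩
  · exact (Dyn.IsDeck.isometry (hZ z.2)).dist_eq x y
  · rw [chartX_dom]
    exact Idx.deck_contDiffOn (hZ z.2)
  · exact Subtype.ext (eq_of_apply_eq (hZ z.2) (one_mem _) (p := x) hz)
  · have h1 := (Dyn.deck_finite (S := S) hK).preimage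
      (f := fun z : Z => ((z : Equiv.Perm (ANO.X r k)) : ANO.X r k → ANO.X r k))
      (fun a _ b _ hab => Subtype.ext (DFunLike.coe_injective hab))
    refine h1.subset fun z hz => ?_
    obtain ⟨x, hx, hzx⟩ := hz
    exact ⟨hZ z.2, x, hx, hzx⟩

theorem cocompact (S : Fin r → ClosedSurface) (k : ℕ) :
    ∃ K : Set (ANO.X r k), IsCompact K ∧ ∀ p, ∃ g ∈ Deck S k, g p ∈ K := by
  obtain ⟨K, hK, h⟩ := Dyn.deck_cocompact S k
  refine ⟨K, hK, fun p => ?_⟩
  obtain ⟨g, hg, hgp⟩ := h p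
  obtain ⟨g', hg', he⟩ := exists_deck hg
  exact ⟨g', hg', by rw [he]; exact hgp⟩

theorem cent_le (S : Fin r → ClosedSurface) (T₀ : ANO.X r k → ANO.X r k) :
    Cent S k T₀ ≤ Deck S k := by
  exact fun _ hg => hg.1

theorem normal_of_homotopic {G₀ G : ANO.X r k → ANO.X r k} (h : Homotopic S G₀ G) :
    Normal S k G₀ ∧ Normal S k G := by
  constructor
  · intro g hg
    obtain ⟨g', hg', h1, -⟩ := h g hg
    obtain ⟨g'', hg'', he⟩ := exists_deck hg'
    exact ⟨g'', hg'', fun p => (congrFun h1 p).trans (he _).symm⟩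
  · intro g hg
    obtain ⟨g', hg', -, h1⟩ := h g hg
    obtain ⟨g'', hg'', he⟩ := exists_deck hg'
    exact ⟨g'', hg'', fun p => (congrFun h1 p).trans (he _).symm⟩

/-- the deck transformations which commute with `g ∘ G₀` commute with `g ∘ G` -/
theorem comm_of_comm {G₀ G : ANO.X r k → ANO.X r k} (h : Homotopic S G₀ G)
    {g : Equiv.Perm (ANO.X r k)} (hg : g ∈ Deck S k) {a : Equiv.Perm (ANO.X r k)}
    (ha : a ∈ Cent S k (g ∘ G₀)) (p : ANO.X r k) : g (G (a p)) = a (g (G p)) := by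
  obtain ⟨hD, hc⟩ := ha
  obtain ⟨a', ha', h1, h2⟩ := h a hD
  obtain ⟨b, hb, he⟩ := exists_deck ha'
  have h3 : G₀ (a p) = b (G₀ p) := (congrFun h1 p).trans (he _).symm
  have h4 : G (a p) = b (G p) := (congrFun h2 p).trans (he _).symm
  have h5 : (g * b) (G₀ p) = (a * g) (G₀ p) := by
    have h6 : g (G₀ (a p)) = a (g (G₀ p)) := hc p
    rw [Equiv.Perm.mul_apply, Equiv.Perm.mul_apply, ← h3, h6]
  have h7 := eq_of_apply_eq (mul_mem hg hb) (mul_mem hD hg) h5
  have h8 := congrArg (fun f : Equiv.Perm (ANO.X r k) => f (G p)) h7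
  simp only [Equiv.Perm.mul_apply] at h8
  rw [h4, h8]

theorem homotopic_iterate {G₀ G : ANO.X r k → ANO.X r k} (h : Homotopic S G₀ G) (m : ℕ) :
    Homotopic S G₀^[m] G^[m] := by
  induction m with
  | zero => exact fun g hg => ⟨g, hg, rfl, rfl⟩
  | succ m ih =>
    intro g hg
    obtain ⟨g', hg', h1, h2⟩ := h g hg
    obtain ⟨g'', hg'', h3, h4⟩ := ih g' hg'
    refine ⟨g'', hg'', ?_, ?_⟩
    · rw [Function.iterate_succ, Function.comp_assoc, h1, ← Function.comp_assoc, h3,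
        Function.comp_assoc]
    · rw [Function.iterate_succ, Function.comp_assoc, h2, ← Function.comp_assoc, h4,
        Function.comp_assoc]

/-- a lift of an iterate of a lift -/
theorem homotopic_comp {G₀ G : ANO.X r k → ANO.X r k} (h : Homotopic S G₀ G)
    {g : Equiv.Perm (ANO.X r k)} (hg : g ∈ Deck S k) : Homotopic S (g ∘ G₀) (g ∘ G) := by
  intro a ha
  obtain ⟨a', ha', h1, h2⟩ := h a ha
  have hi : IsDeck S k ((g⁻¹ : Equiv.Perm (ANO.X r k)) : ANO.X r k → ANO.X r k) := inv_mem hg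
  refine ⟨g ∘ a' ∘ (g⁻¹ : Equiv.Perm (ANO.X r k)), Dyn.IsDeck.comp hg (Dyn.IsDeck.comp ha' hi),
    ?_, ?_⟩
  · funext p
    have h3 : G₀ (a p) = a' (G₀ p) := congrFun h1 p
    simp only [Function.comp_apply, inv_apply_Basic, h3]
  · funext p
    have h3 : G (a p) = a' (G p) := congrFun h2 p
    simp only [Function.comp_apply, inv_apply_Basic, h3]

/-- iterates of lifts: `(g ∘ G₀)^[m] = g' ∘ G₀^[m]` and `(g ∘ G)^[m] = g' ∘ G^[m]` -/
theorem exists_iterate {G₀ G : ANO.X r k → ANO.X r k} (h : Homotopic S G₀ G)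
    {g : Equiv.Perm (ANO.X r k)} (hg : g ∈ Deck S k) (m : ℕ) :
    ∃ g' ∈ Deck S k, (∀ p, (g ∘ G₀)^[m] p = g' (G₀^[m] p)) ∧
      ∀ p, (g ∘ G)^[m] p = g' (G^[m] p) := by
  induction m with
  | zero => exact ⟨1, one_mem _, fun _ => rfl, fun _ => rfl⟩
  | succ m ih =>
    obtain ⟨g', hg', h1, h2⟩ := ih
    obtain ⟨b, hb, h3, h4⟩ := homotopic_iterate h m g hg
    obtain ⟨b', hb', he⟩ := exists_deck hb
    refine ⟨g' * b', mul_mem hg' hb', fun p => ?_, fun p => ?_⟩
    · have h5 : G₀^[m] (g (G₀ p)) = b (G₀^[m] (G₀ p)) := congrFun h3 (G₀ p)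
      rw [Function.iterate_succ_apply, Function.iterate_succ_apply, Function.comp_apply, h1, h5,
        Equiv.Perm.mul_apply, he]
    · have h5 : G^[m] (g (G p)) = b (G^[m] (G p)) := congrFun h4 (G p)
      rw [Function.iterate_succ_apply, Function.iterate_succ_apply, Function.comp_apply, h2, h5,
        Equiv.Perm.mul_apply, he]

end Pool.Agent.ANO3.Grp
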