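import Pool.Agent.ANO2.EqIdx.Inst
import Pool.Agent.ANO2.Dyn.Deck

/-!
# ANO3, module Grp: the group of deck transformations and the index of a lift (definitions)

`S` is a family of closed surfaces.  The deck transformations of `X r k` are a group of permutations
of `X r k` (`Deck S k`), which acts freely, properly discontinuously and cocompactly.  For a map
`T₀ = g ∘ G₀`, where `G₀` normalizes the deck group, `Cent S k T₀` is the group of the deck
transformations which commute with `T₀`.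
-/

set_option autoImplicit false

open Set Filter Topology
open scoped UpperHalfPlane MatrixGroups

namespace Pool.Agent.ANO3.Grp

open Pool.Agent.ANO Pool.Agent.ANO2 Pool.Agent.ANO2.EqIdx

variable {r : ℕ}

/-- The group of deck transformations. -/
def Deck (S : Fin r → ClosedSurface) (k : ℕ) : Subgroup (Equiv.Perm (ANO.X r k)) where
  carrier := {g | IsDeck S k g}
  mul_mem' := fun {a b} ha hb => (Dyn.IsDeck.comp ha hb : IsDeck S k (a ∘ b))
  one_mem' := Dyn.isDeck_id
  inv_mem' := by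
    intro g hg
    obtain ⟨h, hh, h1, h2⟩ := Dyn.IsDeck.inv hg
    have e : ((g⁻¹ : Equiv.Perm (ANO.X r k)) : ANO.X r k → ANO.X r k) = h := by
      funext p
      rw [Equiv.Perm.inv_eq_iff_eq]
      exact (h2 p).symm
    change IsDeck S k ((g⁻¹ : Equiv.Perm (ANO.X r k)) : ANO.X r k → ANO.X r k)
    rw [e]
    exact hh

/-- The deck transformations which commute with `T₀`. -/
def Cent (S : Fin r → ClosedSurface) (k : ℕ) (T₀ : ANO.X r k → ANO.X r k) :
    Subgroup (Equiv.Perm (ANO.X r k)) where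
  carrier := {g | g ∈ Deck S k ∧ ∀ p, T₀ (g p) = g (T₀ p)}
  mul_mem' := by
    rintro a b ⟨ha, ha'⟩ ⟨hb, hb'⟩
    exact ⟨mul_mem ha hb, fun p => by rw [Equiv.Perm.mul_apply, Equiv.Perm.mul_apply, ha', hb']⟩
  one_mem' := ⟨one_mem _, fun _ => rfl⟩
  inv_mem' := by
    rintro a ⟨ha, ha'⟩
    refine ⟨inv_mem ha, fun p => ?_⟩
    rw [eq_comm, Equiv.Perm.inv_eq_iff_eq, ← ha']
    exact congrArg T₀ (Equiv.apply_symm_apply a p).symm

/-- `G₀` normalizes the deck group. -/
def Normal (S : Fin r → ClosedSurface) (k : ℕ) (G₀ : ANO.X r k → ANO.X r k) : Prop :=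
  ∀ g ∈ Deck S k, ∃ g' ∈ Deck S k, ∀ p, G₀ (g p) = g' (G₀ p)

/-- All fixed points of `T₀` are nondegenerate. -/
def Nondeg {k : ℕ} (T₀ : ANO.X r k → ANO.X r k) : Prop :=
  ∀ w, T₀ w = w → (∃ V ∈ 𝓝 (toE w), ContDiffOn ℝ 1 (loc T₀) V) ∧
    (fderiv ℝ (fun x => x - loc T₀ x) (toE w)).det ≠ 0

end Pool.Agent.ANO3.Grp
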