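import Pool.Agent.ANO3.Grp.Cpt
import Pool.Agent.ANO2.Idx.Sgn
import Pool.Agent.ANO2.Idx2.Fix
import Pool.Agent.ANO2.EqIdx.Main

/-!
# ANO3, module Grp: the index of a lift (package GRP-INDEX)

`encard_le`: `ANO2.EqIdx.encard_fixOrb_le` for the chart `chartX r k`, `Z = Cent S k (g ∘ G₀)`
(`action`,
`cent_le`), `G = g ∘ F ^ M` (equivariant by `comm_of_comm`; `C¹`: `ANO2.Idx.contDiffOn_T`; fixed
points
nondegenerate of one sign: `ANO2.Idx.exists_sign`), `G₀ := g ∘ G₀` (`Idx.near`, `g` is an isometry;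
`cpt`;
`finite_fixOrb`; `Nondeg`). If `r = k = 0` the space is a point (`Subsingleton`), `E` is trivial:
the
statement is clear, both sides are `≤ 1` and the right side is `1`; otherwise `Nontrivial (E r k)`
(see `ANO2.Idx2.Final.nontrivial_E`, `subsingleton_X`).
`no_fix`: the right side is `0`.
`existsUnique`: `ANO2.Idx2.Comp.encard` with `T₀ = g ∘ G₀`, `κ = x - loc T₀ x` on a small closed
ball `N`
around `toE w` on which `w` is the only fixed point (`h3` is trivial: `κ - κ = 0`, `κ ≠ 0` on the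
frontier); `cnt κ N = ± 1` (one nondegenerate zero); `Comp.bdd`: `cpt` and the centralizer is
trivial
(`a ∈ Cent` maps `w` to a fixed point, so `a w = w`, `a = 1` by `eq_of_apply_eq`).
-/

set_option autoImplicit false
set_option linter.unusedSectionVars false

open Set Filter Topology
open scoped UpperHalfPlane MatrixGroups

namespace Pool.Agent.ANO3.Grp

open Pool.Agent.ANO Pool.Agent.ANO2 Pool.Agent.ANO2.EqIdx

variable {r k : ℕ} {S : Fin r → ClosedSurface} {F : ANO.X r k ≃ₜ ANO.X r k}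

private theorem nontrivial_Index (h : ¬ (r = 0 ∧ k = 0)) : Nontrivial (ANO.E r k) := by
  by_cases hr : r = 0
  · have hk : 0 < k := Nat.pos_of_ne_zero fun hk => h ⟨hr, hk⟩
    have : Nonempty (Fin k) := ⟨⟨0, hk⟩⟩
    infer_instance
  · have : Nonempty (Fin r) := ⟨⟨0, Nat.pos_of_ne_zero hr⟩⟩
    infer_instance

private theorem subsingleton_Index (h : r = 0 ∧ k = 0) : Subsingleton (ANO.X r k) := by
  obtain ⟨rfl, rfl⟩ := h
  infer_instance

private theorem near_Index {M : ℕ} {G₀ : ANO.X r k → ANO.X r k}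
    (h₀ : Continuous G₀) (h : Homotopic S G₀ (F ^ M : ANO.X r k ≃ₜ ANO.X r k))
    {g : Equiv.Perm (ANO.X r k)} (hg : g ∈ Deck S k) :
    ∃ c : ℝ, ∀ x, dist ((g ∘ (F ^ M : ANO.X r k ≃ₜ ANO.X r k)) x) ((g ∘ G₀) x) ≤ c := by
  obtain ⟨C, hC⟩ := ANO2.Idx.near h h₀ (F ^ M).continuous
  refine ⟨C, fun p => ?_⟩
  show dist (g ((F ^ M) p)) (g (G₀ p)) ≤ C
  rw [ANO2.Idx.deck_dist (S := S) hg]
  exact hC p

theorem encard_le (hF : IsAnosovLift S F) {M : ℕ} (hM : 0 < M) {G₀ : ANO.X r k → ANO.X r k}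
    (h₀ : Continuous G₀) (h : Homotopic S G₀ (F ^ M : ANO.X r k ≃ₜ ANO.X r k))
    {g : Equiv.Perm (ANO.X r k)} (hg : g ∈ Deck S k) (hnd : Nondeg (g ∘ G₀)) :
    (fixOrb (Cent S k (g ∘ G₀)) (g ∘ (F ^ M : ANO.X r k ≃ₜ ANO.X r k))).encard ≤
      (fixOrb (Cent S k (g ∘ G₀)) (g ∘ G₀)).encard := by
  by_cases hrk : r = 0 ∧ k = 0
  · have := subsingleton_Index hrk
    refine encard_le_encard ?_
    rintro _ ⟨q, -, rfl⟩
    exact ⟨q, Subsingleton.elim _ _, rfl⟩
  have := nontrivial_Index hrk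
  have hn := (normal_of_homotopic h).1
  obtain ⟨σ, hσ, hs⟩ := ANO2.Idx.exists_sign hF hM (g := g) hg
  obtain ⟨c, hc⟩ := near_Index h₀ h hg
  refine encard_fixOrb_le (C := chartX r k) (Z := Cent S k (g ∘ G₀)) (action (cent_le S _))
    ⟨?_, ?_⟩ ?_ hσ ?_ ?_ ?_ hc ?_ ?_ ?_
  · rw [chartX_loc, chartX_dom]
    exact ANO2.Idx.contDiffOn_T hF M hg
  · intro z x
    exact comm_of_comm h hg z.2 x
  · intro q _ hq
    exact (hs q hq).1
  · intro q hq
    exact (hs q hq).2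
  · exact (ANO2.Idx.deck_continuous (S := S) hg).comp h₀
  · intro z x
    exact z.2.2 x
  · intro R
    exact cpt h₀ hn hg R
  · exact finite_fixOrb h₀ hn hg hnd
  · intro w hw
    exact hnd w hw

/-- if the lift of the model has no fixed point then the lift of the Anosov map has none -/
theorem no_fix (hF : IsAnosovLift S F) {M : ℕ} (hM : 0 < M) {G₀ : ANO.X r k → ANO.X r k}
    (h₀ : Continuous G₀) (h : Homotopic S G₀ (F ^ M : ANO.X r k ≃ₜ ANO.X r k))
    {g : Equiv.Perm (ANO.X r k)} (hg : g ∈ Deck S k) (h1 : ∀ p, g (G₀ p) ≠ p)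
    (p : ANO.X r k) : g ((F ^ M) p) ≠ p := by
  intro hp
  have h2 := encard_le hF hM h₀ h hg (fun w hw => (h1 w hw).elim)
  have h3 : fixOrb (Cent S k (g ∘ G₀)) (g ∘ G₀) = ∅ := by
    rw [fixOrb, image_eq_empty]
    exact eq_empty_of_forall_notMem h1
  rw [h3, encard_empty, nonpos_iff_eq_zero, encard_eq_zero] at h2
  have h4 : MulAction.orbit (Cent S k (g ∘ G₀)) p ∈
      fixOrb (Cent S k (g ∘ G₀)) (g ∘ (F ^ M : ANO.X r k ≃ₜ ANO.X r k)) := ⟨p, hp, rfl⟩
  rw [h2] at h4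
  exact h4

private theorem comp_Index (hF : IsAnosovLift S F) {M : ℕ} (hM : 0 < M)
    {G₀ : ANO.X r k → ANO.X r k}
    (h₀ : Continuous G₀) (h : Homotopic S G₀ (F ^ M : ANO.X r k ≃ₜ ANO.X r k))
    {g : Equiv.Perm (ANO.X r k)} (hg : g ∈ Deck S k) {w : ANO.X r k}
    (hw : g (G₀ w) = w) (huniq : ∀ w', g (G₀ w') = w' → w' = w) :
    ANO2.Idx2.Comp (g ∘ (F ^ M : ANO.X r k ≃ₜ ANO.X r k)) (g ∘ G₀) := by
  refine ⟨ANO2.Idx.contDiffOn_T hF M hg, (ANO2.Idx.deck_continuous (S := S) hg).comp h₀, ?_,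
    near_Index h₀ h hg, ?_⟩
  · obtain ⟨σ, hσ, hs⟩ := ANO2.Idx.exists_sign hF hM (g := g) hg
    exact ⟨σ, hσ, hs⟩
  · intro C
    obtain ⟨L, hL, hLc⟩ := cpt h₀ (normal_of_homotopic h).1 hg C
    obtain ⟨R, hR⟩ := hL.isBounded.subset_closedBall w
    refine ⟨w, R, fun p hp => ?_⟩
    obtain ⟨⟨a, ha⟩, hap⟩ := hLc p hp
    have h1 : g (G₀ (a w)) = a w := by
      have h2 := ha.2 w
      simp only [Function.comp_apply] at h2
      rw [h2, hw]
    have h2 : a = 1 := eq_of_apply_eq (S := S) (p := w) ha.1 (one_mem _) (by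
      rw [huniq _ h1, Equiv.Perm.one_apply])
    subst h2
    exact hR hap

/-- if the lift of the model has exactly one fixed point, nondegenerate, then the lift of the Anosov
map has exactly one fixed point -/
theorem existsUnique (hF : IsAnosovLift S F) {M : ℕ} (hM : 0 < M) {G₀ : ANO.X r k → ANO.X r k}
    (h₀ : Continuous G₀) (h : Homotopic S G₀ (F ^ M : ANO.X r k ≃ₜ ANO.X r k))
    {g : Equiv.Perm (ANO.X r k)} (hg : g ∈ Deck S k) (hnd : Nondeg (g ∘ G₀)) {w : ANO.X r k}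
    (hw : g (G₀ w) = w) (huniq : ∀ w', g (G₀ w') = w' → w' = w) :
    ∃! q, g ((F ^ M) q) = q := by
  by_cases hrk : r = 0 ∧ k = 0
  · have := subsingleton_Index hrk
    exact ⟨w, Subsingleton.elim _ _, fun _ _ => Subsingleton.elim _ _⟩
  have := nontrivial_Index hrk
  have hcomp := comp_Index hF hM h₀ h hg hw huniq
  obtain ⟨⟨V, hV, hVs⟩, hdet⟩ := hnd w hw
  have hVd : V ∩ dom r k ∈ 𝓝 (toE w) :=
    inter_mem hV (ANO.Idx.isOpen_dom.mem_nhds (ANO.Idx.toE_mem w))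
  obtain ⟨W, hWV, hW, hwW⟩ := mem_nhds_iff.1 hVd
  obtain ⟨ε, hε, hεW⟩ := Metric.nhds_basis_closedBall.mem_iff.1 (hW.mem_nhds hwW)
  have hNd : Metric.closedBall (toE w) ε ⊆ dom r k := fun x hx => (hWV (hεW hx)).2
  have hzero : ∀ x ∈ Metric.closedBall (toE w) ε, x - loc (g ∘ G₀) x = 0 → x = toE w := by
    intro x hx hx0
    have h1 : toE (ofE x : ANO.X r k) = x := ANO.Idx.toE_ofE (hNd hx)
    have h2 : toE (g (G₀ (ofE x))) = x := (sub_eq_zero.1 hx0).symm
    have h3 : g (G₀ (ofE x)) = ofE x := by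
      have h4 : (ofE (toE (g (G₀ (ofE x)))) : ANO.X r k) = ofE x := by rw [h2]
      rwa [ANO.Idx.ofE_toE] at h4
    rw [← h1, huniq _ h3]
  have hw0 : toE w - loc (g ∘ G₀) (toE w) = 0 := by
    rw [sub_eq_zero]
    show toE w = toE (g (G₀ (ofE (toE w))))
    rw [ANO.Idx.ofE_toE, hw]
  have hcard := hcomp.encard (N := Metric.closedBall (toE w) ε) (W := W)
    (κ := fun x => x - loc (g ∘ G₀) x) (isCompact_closedBall _ _) hNd hW hεW
    (contDiffOn_id.sub (hVs.mono fun x hx => (hWV hx).1)) (fun x hx hx0 => by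
      rw [hzero x hx hx0]
      exact hdet) (fun w' hw' => by
      rw [huniq w' hw']
      exact mem_interior_iff_mem_nhds.2 (Metric.closedBall_mem_nhds _ hε)) (fun x hx t _ => by
      rw [sub_self, smul_zero, add_zero]
      intro hx0
      rw [hzero x (Metric.isClosed_closedBall.frontier_subset hx) hx0] at hx
      exact hx.2 (mem_interior_iff_mem_nhds.2 (Metric.closedBall_mem_nhds _ hε)))
  have h1 : Metric.closedBall (toE w) ε ∩ (fun x => x - loc (g ∘ G₀) x) ⁻¹' {0} = {toE w} := by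
    ext x
    constructor
    · rintro ⟨hx, hx0⟩
      exact hzero x hx hx0
    · rintro rfl
      exact ⟨Metric.mem_closedBall_self hε.le, hw0⟩
  have h2 : (ANO.Idx.cnt (fun x => x - loc (g ∘ G₀) x) (Metric.closedBall (toE w) ε)).natAbs
      = 1 := by
    unfold ANO.Idx.cnt
    rw [h1, finsum_mem_singleton]
    unfold SmoothDegree.jacobianSign
    rcases lt_or_gt_of_ne hdet with h | h
    · rw [sign_neg h]
      decide
    · rw [sign_pos h]
      decide
  rw [h2, Nat.cast_one, encard_eq_one] at hcard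
  obtain ⟨q, hq⟩ := hcard
  refine ⟨q, ?_, fun q' hq' => ?_⟩
  · have h4 : q ∈ {q | (g ∘ (F ^ M : ANO.X r k ≃ₜ ANO.X r k)) q = q} := by
      rw [hq]
      exact mem_singleton q
    exact h4
  · have h4 : q' ∈ {q | (g ∘ (F ^ M : ANO.X r k ≃ₜ ANO.X r k)) q = q} := hq'
    rw [hq] at h4
    exact h4

end Pool.Agent.ANO3.Grp
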